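import Pool.Agent.R882.TCorr

/-!
# Nonvanishing for the varieties which correspond to a nondegenerate complete intersection

Let `V` be a component, of dimension `n`, of the set of common zeros in the torus of a system `f` of
Laurent polynomials which is nondegenerate in the sense of Khovanskii, with arbitrary Newton
polytopes, and let `u`, `w 1, ..., w N` be integral vectors such that `u` and the `u + M w j` are in
the Fine interior of the Minkowski sum of the Newton polytopes. Let `V'` be the image of `V` under the
monomials `t j = x ^ w j`, and `d = dim V'`.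

Let `W` be any projective variety of dimension `n`, and let `V ⇠ Γ ⇢ W` be a correspondence: `Γ` is any
variety with dominant rational maps of finite degree to `V` and to `W`. For example, `W` may be
dominated by `V` (`Γ = V`), or by some covering of `V`. Let `s` be the degree over `W` of the image of
`Γ` in `W × V'`: to a general point of `W` correspond `s` points of `V'`. The degree of `Γ` over `V`
is arbitrary. Suppose that the points of `V` are determined by those of `V'`: the image of `Γ` in
`W × V` is birational to its image in `W × V'`. This is true in particular if `V ⇢ V'` is birational.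

* If `s ≤ M + 1` then `p_g(W) > 0`, so `K_W` is `ℚ`-effective.
* If `2 s ≤ M + 1` then `κ(W) ≥ d`. In particular `W` is of general type if `d = n`.

So nonvanishing holds for all projective manifolds birational to such a `W`, without assuming that the
canonical bundle is pseudo-effective. For the `W` with `p_g(W) = 0`, for example for uniruled ones,
one obtains that all correspondences have `s ≥ M + 2`.

Proof. The form `ω = x ^ u Res` on `V` is a section of `K_V - M H`, so the pullback `ω'` of `ω` to `Γ`
is a section of `K_Γ - M H`. The trace of `ω'` on the image `W'` of `Γ` in `W × V'` is a nonzero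
multiple of the pullback of `ω` to `W'`. The map given by `t` separates the points of the fibres of
`W' → W`. Therefore the traces on `W` of the forms `A(t) ω'`, where `A` is a polynomial of degree at
most `M`, are not all zero if `s ≤ M + 1`, and have ratios which generate a field of transcendence
degree at least `d` if `2 s ≤ M + 1` (`Pool/Agent/R882/TRat.lean`).

The case `Γ = V` is `MP_5ff3c6_ag.ImagesOfIntersections` of this team.
-/

set_option autoImplicit false
set_option linter.overlappingInstances false
set_option maxHeartbeats 1000000

open FF Module Pool.Agent Pool.Agent.W602.GT Pool.Agent.R885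

namespace Pool.Agent.Results.MP_813db1_ag.Correspondences

/-- The Laurent polynomials `f l` are nondegenerate: the initial parts `ini v (f l)` have linearly
independent logarithmic gradients at all their common zeros in the torus. -/
def Nondegenerate {r q : ℕ} (f : Fin q → (Fin r → ℤ) →₀ ℂ) : Prop :=
  ∀ v : Fin r → ℤ, ∀ c : Fin r → ℂ, (∀ i, c i ≠ 0) → (∀ l, ev c (ini v (f l)) = 0) →
    LinearIndependent ℂ fun l => gr c (ini v (f l))

/-- `x` is the generic point of a subvariety, with function field `K`, of the set of common zeros
of the `f l` in the torus `(ℂ^*) ^ r`. -/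
def IsGenericPoint {K : Type} [Field K] [Algebra ℂ K] {r q : ℕ} (f : Fin q → (Fin r → ℤ) →₀ ℂ)
    (x : Fin r → K) : Prop :=
  (∀ i, x i ≠ 0) ∧ (∀ l, ev x (f l) = 0) ∧ IntermediateField.adjoin ℂ (Set.range x) = ⊤

/-- The integral vector `u` is in the Fine interior of the Minkowski sum of the Newton polytopes of
the `f l`. -/
def InFine {r q : ℕ} (f : Fin q → (Fin r → ℤ) →₀ ℂ) (u : Fin r → ℤ) : Prop :=
  ∀ v : Fin r → ℤ, v ≠ 0 → 1 + ∑ l, mn v (f l) ≤ u ⬝ᵥ v

/-- The geometric genus of the variety with the function field `L` is positive: there is a nonzero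
canonical form which is regular at all prime divisors. -/
def GenusPositive (L : Type) [Field L] [Algebra ℂ L] (n : ℕ) : Prop :=
  ∃ ω : (Fin n → Derivation ℂ L L) → L, IsPluri 1 ω ∧
    (∀ P : Place ℂ L, Divisorial n P → RegAt P ω) ∧ ∃ D, ω D ≠ 0

/-- **Correspondences.** Let `V` be a component, of dimension `n`, of the set of common zeros of a
nondegenerate system `f`, with function field `K` and generic point `x`. Let `u` and the `u + M w j` be
in the Fine interior, `t j` the monomial with the exponent `w j`, and `d` the transcendence degree of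
`ℂ(t)`. Let `Γ` be a variety, with function field `G`, with dominant rational maps of finite degree to
`V` and to `W`, let `L` be the function field of `W`, and suppose that `K` is contained in the subfield
`L(t)` of `G`. Let `s = [L(t) : L]`. If `s ≤ M + 1` then `p_g(W) > 0`. If `2 s ≤ M + 1` then
`κ(W) ≥ d`. -/
theorem result {n q N M d : ℕ} (hM : 1 ≤ M) {f : Fin q → (Fin (n + q) → ℤ) →₀ ℂ}
    (hf : Nondegenerate f) {K : Type} [Field K] [Algebra ℂ K] {x : Fin (n + q) → K}
    (hx : IsGenericPoint f x) (hK : Algebra.trdeg ℂ K = (n : ℕ))
    {u : Fin (n + q) → ℤ} {w : Fin N → Fin (n + q) → ℤ} (hu : InFine f u)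
    (hw : ∀ j, InFine f (u + (M : ℤ) • w j)) {t : Fin N → K}
    (ht : ∀ j, t j = R885.mono x (w j))
    (hd : Algebra.trdeg ℂ (IntermediateField.adjoin ℂ (Set.range t)) = (d : ℕ))
    (G : Type) [Field G] [Algebra ℂ G] [Algebra K G] [IsScalarTower ℂ K G]
    [FiniteDimensional K G]
    (L : Type) [Field L] [Algebra ℂ L] [Algebra L G] [IsScalarTower ℂ L G]
    [FiniteDimensional L G]
    (hG : ∀ g : K, algebraMap K G g ∈
      IntermediateField.adjoin L (Set.range fun j => algebraMap K G (t j))) :
    (Module.finrank L (IntermediateField.adjoin L (Set.range fun j => algebraMap K G (t j))) ≤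
      M + 1 → GenusPositive L n) ∧
    (2 * Module.finrank L (IntermediateField.adjoin L
      (Set.range fun j => algebraMap K G (t j))) ≤ M + 1 →
      KodGe ℂ L n (fun _ => False) d) := by
  classical
  have hess : Algebra.EssFiniteType ℂ K := by
    rw [← IntermediateField.fg_top_iff, ← hx.2.2]
    exact ⟨Finset.univ.image x, by rw [Finset.coe_image, Finset.coe_univ, Set.image_univ]⟩
  have hessG : Algebra.EssFiniteType ℂ G := by
    have h1 : Algebra.EssFiniteType K G := inferInstance
    exact Algebra.EssFiniteType.comp ℂ K G
  have hGn : Algebra.trdeg ℂ G = (n : ℕ) := Pool.Agent.Y172.trdeg_up (K := K) hK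
  have e : Fin q ⊕ Fin n ≃ Fin (n + q) := Fintype.equivOfCardEq (by
    rw [Fintype.card_sum, Fintype.card_fin, Fintype.card_fin, Fintype.card_fin, add_comm])
  obtain ⟨ω, hω, hne⟩ := Pool.Agent.R882.LT.exists_twisted hK hx.1 hx.2.2 e hx.2.1
    (fun v => hf v) hM hu hw
  have htE : t = fun j => R885.mono x (w j) := funext ht
  rw [← htE] at hω
  obtain ⟨z, E, hz, hE⟩ := Pool.Agent.Y172.exists_crd (k := ℂ) (K := K) hK
  have hω' : Pool.Agent.R882.LT.IsTwistedLog n M (fun _ => False) t ω :=
    ⟨hω.1, fun a ha P hP => Pool.Agent.R882.LT.secAt_of (hω.2 a ha P hP)⟩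
  have hp := Pool.Agent.R882.LT.pull_twisted (G := G) (BG := fun _ => False) hK hz hE
    (fun _ _ _ _ h => h) hω'
  have htr := Pool.Agent.R882.LT.pull_trace (G := G) (F := (IntermediateField.adjoin L
    (Set.range fun j => algebraMap K G (t j))).restrictScalars ℂ) hK hE (hne z hz E hE) hG
  have hdG : Algebra.trdeg ℂ (IntermediateField.adjoin ℂ
      (Set.range fun j => algebraMap K G (t j))) = (d : ℕ) := by
    rw [← hd]
    let φ : K →ₐ[ℂ] G := IsScalarTower.toAlgHom ℂ K G
    have h1 : IntermediateField.adjoin ℂ (Set.range fun j => algebraMap K G (t j)) =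
        (IntermediateField.adjoin ℂ (Set.range t)).map φ := by
      rw [IntermediateField.adjoin_map, ← Set.range_comp]
      rfl
    rw [h1]
    exact ((IntermediateField.adjoin ℂ (Set.range t)).equivMap φ).symm.trdeg_eq
  have h1 := Pool.Agent.R882.LT.core_log (K := G) (L := L) (BK := fun _ => False)
    (BL := fun _ => False) hGn hdG (fun _ _ _ _ h => h) rfl hp htr
  refine ⟨fun hs => ?_, fun hs => Pool.Agent.R882.LT.kodGe_log (h1.2 hs)⟩
  obtain ⟨η, hη, hη', hne'⟩ := h1.1 hs
  exact ⟨η, hη, fun P hP => (hη' P hP).2 fun h => h, hne'⟩

end Pool.Agent.Results.MP_813db1_ag.Correspondences
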