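import Pool.Agent.R882.PMain
import Pool.Agent.Y184.NT.Top

/-!
# Negative Kodaira dimension and rationality of the images of hypersurfaces in products of
projective lines

Let `V` be a smooth hypersurface of multidegree `(d_0, …, d_n)` in the product of `n + 1` projective
lines, `d_i = m_i + 2`, so that the canonical bundle of `V` is `O(m_0, …, m_n)`; or let `V` be an
arbitrary hypersurface of multidegree `(d_0, …, d_n)` (that is, any variety whose function field `K`
is generated by `x_0, …, x_n`), with any singularities, which has a canonical form `ω ≠ 0` such that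
the forms `x_0 ^ e_0 ⋯ x_n ^ e_n ω` are regular for all `e_i ≤ m_i` (so `K_V = O(m_0, …, m_n) +
effective`, on a resolution of `V`), where `d_i < 2 m_i + 4`. Let `μ` be the minimum of the `m_i`.

Let `W` be any smooth projective variety with a dominant rational map `V ⇢ W` of degree `r`; nothing
is assumed about the map (it need not be a quotient by a group, and its ramification is arbitrary)
or about `W`. The theorem: if `r ≤ μ + 1` then `p_g(W) > 0`. If `r ≤ 2 μ + 1` then these are
equivalent: `p_g(W) = 0`; `κ(W) = -∞`; `K_W` is not pseudo-effective; `W` is uniruled; `W` is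
rational; `V ⇢ W` is one of the `n + 1` projections of `V` to a product of `n` projective lines.

Proof: the traces of the forms `x ^ e ω` are canonical forms of `W`. If `p_g(W) = 0` then they
vanish. Using only the monomials of total degree at most `μ` one sees that the conjugates of
`(x_0, …, x_n)` over the function field `L` of `W` lie on a line `x_j = a_j + b_j τ`, and using all
monomials one sees that only one of the coordinates, `x_i`, is not constant on this line, because
the products of the polynomials of degree at most `m_i` in `x_i` and at most `m_j` in `x_j` are all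
polynomials in `τ` of degree at most `m_i + m_j`, and `m_i + m_j + 1 ≥ r`. Hence `L` contains the
field `E` generated by the `x_j`, `j ≠ i`, and `r ≥ m_i + 2`. If `K` were not algebraic over `E` then
`V` would be ruled. So the degree of `K` over `E` is at most `d_i < 2 r`, and `L = E`.

The function-field language of the starting repository is used: `K` is the function field of `V`,
and `L`, a subfield of `K`, the function field of `W`. A canonical form (`IsPluri 1`) on a variety
of dimension `n` is a function of `n` rational vector fields; it is regular at the prime divisor `P`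
(`Place`, `Divisorial`, `RegAt`) if its value on vector fields which are regular at `P` is regular
at `P`. `KodGe ℂ L n (fun _ => False) 0` says that `κ(W) ≥ 0`, `Psef ℂ L n (fun _ => False)` that
`K_W` is pseudo-effective (`Pool/Agent/W602/GT`), `IsUniruled ℂ L n` that `W` is uniruled
(`Pool/Agent/W619/PQ/Defs.lean`). `chart d S F` (`Pool/Agent/R882/PRes.lean`) is the equation in the
affine chart of the product of projective lines with the coordinates `z_i = 1 / x_i`, `i ∈ S`, and
`z_i = x_i`, `i ∉ S`.
-/

set_option autoImplicit false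
set_option linter.overlappingInstances false

open FF MvPolynomial Pool.Agent.W602.GT
open Pool.Agent.W619.PQ (IsUniruled)
open Pool.Agent.R882.PL (chart)

namespace Pool.Agent.Results.MP_813db1_ag.ImagesProductOfLines

/-- The closure of the hypersurface `F = 0` in the product of `n + 1` projective lines, as a divisor
of multidegree `d`, is smooth: in each of the `2 ^ (n + 1)` affine charts the equation and its
partial derivatives have no common zero. -/
def IsSmooth {n : ℕ} (d : Fin (n + 1) → ℕ) (F : MvPolynomial (Fin (n + 1)) ℂ) : Prop :=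
  ∀ (S : Finset (Fin (n + 1))) (z : Fin (n + 1) → ℂ), eval z (chart d S F) = 0 →
    ∃ l, eval z (pderiv l (chart d S F)) ≠ 0

section

variable {K : Type} [Field K] [Algebra ℂ K] {n : ℕ}

/-- `x` is the generic point of the hypersurface `F = 0` of dimension `n`, whose function field is
`K`. -/
structure IsGenericPoint (F : MvPolynomial (Fin (n + 1)) ℂ) (x : Fin (n + 1) → K) : Prop where
  zero : aeval x F = 0
  gen : IntermediateField.adjoin ℂ (Set.range x) = ⊤
  dim : Algebra.trdeg ℂ K = n

/-- There is a canonical form `ω ≠ 0` such that the canonical forms `x_0 ^ e_0 ⋯ x_n ^ e_n ω` are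
regular at all prime divisors, for all `e_i ≤ m_i`. -/
def HasForm (m : Fin (n + 1) → ℕ) (x : Fin (n + 1) → K) : Prop :=
  ∃ ω : (Fin n → Derivation ℂ K K) → K, IsPluri 1 ω ∧ (∃ D, ω D ≠ 0) ∧
    ∀ e : Fin (n + 1) → ℕ, (∀ i, e i ≤ m i) → ∀ P : Place ℂ K, Divisorial n P →
      RegAt P (fun D => (∏ i, x i ^ e i) * ω D)

end

section

variable (L : Type) [Field L] [Algebra ℂ L] (n : ℕ)

/-- The geometric genus is zero: the only canonical form which is regular at all prime divisors is
`0`. -/
def GenusZero : Prop :=
  ∀ ω : (Fin n → Derivation ℂ L L) → L, IsPluri 1 ω →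
    (∀ P : Place ℂ L, Divisorial n P → RegAt P ω) → ∀ D, ω D = 0

/-- The varieties of dimension `n` with function field `L` are rational. -/
def IsRational : Prop :=
  ∃ f : Fin n → L, AlgebraicIndependent ℂ f ∧ IntermediateField.adjoin ℂ (Set.range f) = ⊤

/-- The map `V ⇢ W` is (birationally) the projection of `V` which forgets the coordinate `x_i`: the
subfield `L` of `K` is generated by the other coordinates. -/
def IsProjection {K : Type} [Field K] [Algebra ℂ K] [Algebra L K] (x : Fin (n + 1) → K)
    (i : Fin (n + 1)) : Prop :=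
  ∀ z : K, z ∈ Set.range (algebraMap L K) ↔ z ∈ IntermediateField.adjoin ℂ (x '' {i}ᶜ)

end

section

variable {L K : Type} [Field L] [Field K] [Algebra ℂ L] [Algebra ℂ K] [Algebra L K]
  [IsScalarTower ℂ L K] [FiniteDimensional L K] {n : ℕ} {x : Fin (n + 1) → K}

omit [Field K] [Algebra ℂ K] in
theorem range_sub (i : Fin (n + 1)) :
    Set.range (fun j : {j // j ≠ i} => x j) = x '' {i}ᶜ := by
  ext z
  constructor
  · rintro ⟨j, rfl⟩
    exact ⟨j, j.2, rfl⟩
  · rintro ⟨j, hj, rfl⟩
    exact ⟨⟨j, hj⟩, rfl⟩

omit [FiniteDimensional L K] in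
/-- the images of the projections are rational -/
theorem rational_of_projection (hL : Algebra.trdeg ℂ L = n) {i : Fin (n + 1)}
    (h : IsProjection L n x i) : IsRational L n := by
  have h1 : ∀ j : Fin n, ∃ f : L, algebraMap L K f = x (i.succAbove j) := fun j =>
    (h _).2 (IntermediateField.subset_adjoin ℂ _ ⟨_, Fin.succAbove_ne i j, rfl⟩)
  choose f hf using h1
  have htop : IntermediateField.adjoin ℂ (Set.range f) = ⊤ := by
    apply IntermediateField.map_injective (IsScalarTower.toAlgHom ℂ L K)
    rw [IntermediateField.adjoin_map, ← AlgHom.fieldRange_eq_map]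
    have h2 : (IsScalarTower.toAlgHom ℂ L K) '' Set.range f = x '' {i}ᶜ := by
      ext z
      constructor
      · rintro ⟨_, ⟨j, rfl⟩, rfl⟩
        exact ⟨_, Fin.succAbove_ne i j, (hf j).symm⟩
      · rintro ⟨j, hj, rfl⟩
        obtain ⟨k, hk⟩ := Fin.exists_succAbove_eq hj
        refine ⟨f k, ⟨k, rfl⟩, ?_⟩
        change algebraMap L K (f k) = x j
        rw [hf, hk]
    rw [h2]
    ext z
    rw [← h z]
    rfl
  refine ⟨f, ?_, htop⟩
  have h3 : Algebra.IsAlgebraic (Algebra.adjoin ℂ (Set.range f)) L := by
    apply Pool.Agent.W619.PQ.alg_adjoin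
    rw [htop]
    intro z
    exact isAlgebraic_algebraMap (⟨z, trivial⟩ : (⊤ : IntermediateField ℂ L))
  exact (Algebra.IsAlgebraic.isTranscendenceBasis_of_lift_le_trdeg_of_finite ℂ f (by
    rw [hL]
    simp)).1

omit [FiniteDimensional L K] in
/-- the degree over a subfield -/
theorem finrank_range :
    Module.finrank (IsScalarTower.toAlgHom ℂ L K).fieldRange K = Module.finrank L K := by
  let e : L ≃+* (IsScalarTower.toAlgHom ℂ L K).fieldRange :=
    (AlgEquiv.ofInjectiveField (IsScalarTower.toAlgHom ℂ L K)).toRingEquiv
  exact (Algebra.finrank_eq_of_equiv_equiv e (RingEquiv.refl K) (by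
    ext z
    rfl)).symm

end

/-- **Images of hypersurfaces in products of projective lines.** Let `V` be a hypersurface of
dimension `n ≥ 1` of multidegree `d` in the product of `n + 1` projective lines, with generic point
`x` and function field `K`, where either `V` is smooth and `d_i = m_i + 2`, or `V` is arbitrary, the
canonical forms `x ^ e ω` are regular for some `ω ≠ 0` and all `e_i ≤ m_i`, and `d_i < 2 m_i + 4`. Let
`μ ≤ m_i` for all `i`, let `W` be a smooth projective variety with function field `L` and `V ⇢ W` a
dominant rational map of degree `r`. If `r ≤ μ + 1` then `p_g(W) > 0`. If `r ≤ 2 μ + 1` then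
`p_g(W) = 0` if and only if `κ(W) = -∞`, if and only if `K_W` is not pseudo-effective, if and only if
`W` is uniruled, if and only if `W` is rational, if and only if `V ⇢ W` is a projection of `V` which
forgets one of the coordinates. -/
theorem result {n μ : ℕ} (hn : 1 ≤ n) {d m : Fin (n + 1) → ℕ} (hμ : ∀ i, μ ≤ m i)
    {F : MvPolynomial (Fin (n + 1)) ℂ} (hF0 : F ≠ 0) (hF : ∀ i, F.degreeOf i ≤ d i)
    {K : Type} [Field K] [Algebra ℂ K] {x : Fin (n + 1) → K} (hx : IsGenericPoint F x)
    (hV : (IsSmooth d F ∧ ∀ i, d i = m i + 2) ∨ (HasForm m x ∧ ∀ i, d i < 2 * m i + 4))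
    (L : Type) [Field L] [Algebra ℂ L] [Algebra L K] [IsScalarTower ℂ L K]
    [FiniteDimensional L K] :
    (Module.finrank L K ≤ μ + 1 → ¬ GenusZero L n) ∧
    (Module.finrank L K ≤ 2 * μ + 1 →
      [GenusZero L n, ¬ KodGe ℂ L n (fun _ => False) 0, ¬ Psef ℂ L n (fun _ => False),
        IsUniruled ℂ L n, IsRational L n, ∃ i, IsProjection L n x i].TFAE) := by
  classical
  have hessK : Algebra.EssFiniteType ℂ K := by
    rw [← IntermediateField.fg_top_iff]
    exact ⟨Finset.univ.image x, by
      rw [Finset.coe_image, Finset.coe_univ, Set.image_univ, hx.gen]⟩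
  have hessL : Algebra.EssFiniteType ℂ L := Pool.Agent.TH466.QG.ess_below (K := K)
  have hL : Algebra.trdeg ℂ L = n := Pool.Agent.Y184.NT.trdeg_below (K := K) hx.dim
  obtain ⟨z, E, hz, hE⟩ := Pool.Agent.Y172.exists_crd (k := ℂ) (K := L) hL
  choose E' hE' using fun i => Pool.Agent.Y172.exists_lift (k := ℂ) (K := L) (L := K) hL (E i)
  have hEind : LinearIndependent K E' := Pool.Agent.Y184.NT.lift_ind hE hE'
  have hd : ∀ i, d i < 2 * m i + 4 := by
    intro i
    rcases hV with ⟨-, h⟩ | ⟨-, h⟩
    · rw [h i]
      omega
    · exact h i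
  -- the canonical form
  obtain ⟨ω, hω, hωE, hreg⟩ : ∃ ω : (Fin n → Derivation ℂ K K) → K, IsPluri 1 ω ∧ ω E' ≠ 0 ∧
      ∀ e : Fin (n + 1) → ℕ, (∀ i, e i ≤ m i) → ∀ P : Place ℂ K, Divisorial n P →
        RegAt P (fun D => (∏ i, x i ^ e i) * ω D) := by
    rcases hV with ⟨hs, h⟩ | ⟨⟨ω, hω, ⟨D, hD⟩, hreg⟩, -⟩
    · have hs0 : ∀ z, eval z F = 0 → ∃ l, eval z (pderiv l F) ≠ 0 := by
        have h1 : chart d ∅ F = F := by
          rw [chart]
          conv_rhs => rw [F.as_sum]
          refine Finset.sum_congr rfl fun u _ => ?_
          have h2 : Pool.Agent.R882.PL.flip d ∅ u = u := by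
            ext i
            change (if i ∈ (∅ : Finset (Fin (n + 1))) then d i - u i else u i) = u i
            rw [if_neg (Finset.notMem_empty i)]
          rw [h2]
        intro z hz
        have h2 := hs ∅ z
        rw [h1] at h2
        exact h2 hz
      obtain ⟨c, hc⟩ := Pool.Agent.R882.PL.exists_c2 hs0 hx.zero
      refine ⟨fun D => 1 * (Pool.Agent.R882.PL.prow c x D).det,
        Pool.Agent.R882.PL.prow_pluri 1 c x, ?_, fun e he P _ => ?_⟩
      · change (1 : K) * _ ≠ 0
        rw [one_mul]
        exact Pool.Agent.R882.PL.prow_ne hx.zero hc hx.gen hEind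
      · simp only [one_mul]
        exact Pool.Agent.R882.PL.prod_reg hF hs hx.zero hc (fun i => by
          rw [h i]
          exact Nat.add_le_add_right (he i) 2) P
    · refine ⟨ω, hω, ?_, hreg⟩
      obtain ⟨y, EK, hy, hEK⟩ := Pool.Agent.Y172.exists_crd (k := ℂ) (K := K) hx.dim
      have h1 : ω EK ≠ 0 := by
        intro h0
        apply hD
        rw [Pool.Agent.Y172.pluri_coord hy hEK hω D, h0, mul_zero]
      rw [Pool.Agent.Y172.pluri_coord hy hEK hω E']
      exact mul_ne_zero (pow_ne_zero _ (Pool.Agent.Y184.NT.minor_ne hy hEK hEind)) h1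
  have hline : GenusZero L n → Module.finrank L K ≤ 2 * μ + 1 →
      ∃ i0, (∀ j, j ≠ i0 → x j ∈ Set.range (algebraMap L K)) ∧
        m i0 + 2 ≤ Module.finrank L K := fun hg hr =>
    Pool.Agent.R882.PL.line_dir hL hg hx.gen hω hμ hreg hE' hωE hr
  have main : Module.finrank L K ≤ 2 * μ + 1 → GenusZero L n → ∃ i, IsProjection L n x i := by
    intro hr hg
    obtain ⟨i0, hi0, hmr⟩ := hline hg hr
    refine ⟨i0, ?_⟩
    obtain ⟨C, hC⟩ : ∃ C : IntermediateField ℂ K, C = IntermediateField.adjoin ℂ (x '' {i0}ᶜ) :=
      ⟨_, rfl⟩
    have hxC : ∀ j, j ≠ i0 → x j ∈ C := fun j hj => by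
      rw [hC]
      exact IntermediateField.subset_adjoin ℂ _ ⟨j, hj, rfl⟩
    have htop : IntermediateField.adjoin C {x i0} = ⊤ := by
      rw [eq_top_iff]
      intro y _
      have h1 : y ∈ IntermediateField.adjoin ℂ (Set.range x) := by
        rw [hx.gen]
        trivial
      have h2 : IntermediateField.adjoin ℂ (Set.range x) ≤
          (IntermediateField.adjoin C {x i0}).restrictScalars ℂ := by
        rw [IntermediateField.adjoin_le_iff]
        rintro _ ⟨j, rfl⟩
        by_cases hj : j = i0
        · rw [hj]
          exact IntermediateField.mem_adjoin_simple_self C (x i0)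
        · exact (IntermediateField.adjoin C {x i0}).algebraMap_mem ⟨x j, hxC j hj⟩
      exact h2 h1
    have halg : IsAlgebraic C (x i0) := by
      by_contra htr
      have hR : Ruled ℂ K := ⟨C, x i0, htr, htop⟩
      have h1 : IsUniruled ℂ K n :=
        Pool.Agent.TH466.QG.uniruled_below (F := K) (K := K) hx.dim hR
      apply (Pool.Agent.W619.Y.uniruled_neg n hx.dim h1).1
      rw [← Pool.Agent.TH466.QG.psef_iff n]
      have hreg0 : ∀ P : Place ℂ K, Divisorial n P → RegAt P ω := by
        intro P hP
        have h2 := hreg (fun _ => 0) (fun _ => Nat.zero_le _) P hP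
        simpa using h2
      have hk : KodGe ℂ K n (fun _ => False) 0 :=
        ⟨1, one_pos, fun _ => ω, fun _ => ⟨hω, fun P hP D' hD' => hreg0 P hP D' fun i =>
          Pool.Agent.TH466.QG.derReg_of_log (hD' i), fun P hP _ => hreg0 P hP⟩, E', hωE,
          algebraicIndependent_empty_type⟩
      exact psef_of_kodGe hk
    have hint : IsIntegral C (x i0) := halg.isIntegral
    have hfin : FiniteDimensional C K := by
      have h1 : FiniteDimensional C (IntermediateField.adjoin C {x i0}) :=
        IntermediateField.adjoin.finiteDimensional hint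
      rw [htop] at h1
      exact Module.Finite.equiv (IntermediateField.topEquiv (F := C) (E := K)).toLinearEquiv
    have hind : AlgebraicIndependent ℂ (fun j : {j // j ≠ i0} => x j) := by
      have h1 : ∀ τ : K, IsAlgebraic (IntermediateField.adjoin ℂ
          (Set.range fun j : {j // j ≠ i0} => x j)) τ := by
        rw [range_sub, ← hC]
        exact fun τ => (Algebra.IsIntegral.isIntegral τ).isAlgebraic
      have h2 := Pool.Agent.W619.PQ.alg_adjoin h1
      exact (Algebra.IsAlgebraic.isTranscendenceBasis_of_lift_le_trdeg_of_finite ℂ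
        (fun j : {j // j ≠ i0} => x j) (by
          rw [hx.dim]
          simp)).1
    obtain ⟨p, hp0, hpd, hpx⟩ := Pool.Agent.R882.PL.deg_poly hF0 hx.zero i0 hxC hind
    have hdegC : Module.finrank C K ≤ d i0 := by
      have h1 := IntermediateField.adjoin.finrank hint
      rw [htop, IntermediateField.finrank_top'] at h1
      rw [h1]
      exact le_trans (Polynomial.natDegree_le_of_dvd (minpoly.dvd _ _ hpx) hp0)
        (le_trans hpd (hF i0))
    have hCR : C ≤ (IsScalarTower.toAlgHom ℂ L K).fieldRange := by
      rw [hC, IntermediateField.adjoin_le_iff]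
      rintro _ ⟨j, hj, rfl⟩
      exact hi0 j hj
    have heq : C = (IsScalarTower.toAlgHom ℂ L K).fieldRange := by
      apply IntermediateField.eq_of_le_of_finrank_eq' hCR
      obtain ⟨q, hq⟩ := IntermediateField.finrank_dvd_of_le_left hCR
      rw [finrank_range] at hq ⊢
      have h1 : 0 < Module.finrank C K := Module.finrank_pos
      have h2 := hd i0
      rcases Nat.lt_or_ge q 2 with h3 | h3
      · have h4 : q = 1 := by
          rcases Nat.eq_zero_or_pos q with h5 | h5
          · rw [h5] at hq
            omega
          · omega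
        rw [hq, h4, mul_one]
      · exfalso
        have h4 : Module.finrank L K * 2 ≤ Module.finrank L K * q := Nat.mul_le_mul_left _ h3
        omega
    intro z
    rw [← hC, heq]
    rfl
  refine ⟨fun hr hg => ?_, fun hr => ?_⟩
  · obtain ⟨i0, -, h1⟩ := hline hg (by omega)
    have h2 := hμ i0
    omega
  · tfae_have 1 → 6 := main hr
    tfae_have 6 → 5 := fun ⟨i, hi⟩ => rational_of_projection hL hi
    tfae_have 5 → 4 := fun ⟨f, hf, htop⟩ => Pool.Agent.Y184.NT.uniruled_of_rational hn hf htop
    tfae_have 4 → 3 := fun h h' =>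
      (Pool.Agent.W619.Y.uniruled_neg n hL h).1 ((Pool.Agent.TH466.QG.psef_iff n).1 h')
    tfae_have 3 → 2 := fun h h' => h (psef_of_kodGe h')
    tfae_have 2 → 1 := by
      intro h ω hω hreg D
      by_contra hne
      refine h ⟨1, one_pos, fun _ => ω, fun _ => ⟨hω, fun P hP D' hD' => ?_,
        fun P hP _ => hreg P hP⟩, D, hne, ?_⟩
      · exact hreg P hP D' fun i => Pool.Agent.TH466.QG.derReg_of_log (hD' i)
      · exact algebraicIndependent_empty_type
    tfae_finish

end Pool.Agent.Results.MP_813db1_ag.ImagesProductOfLines
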